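import Pool.Agent.Helper92.WC.AsyS
import Pool.Agent.Helper85.WC.Grow

/-!
# WC, block D6 (final form): the asymptotic formula for the moments of the largest error
-/

open MeasureTheory Real Set Filter Topology

set_option autoImplicit false

namespace Pool.Agent.Helper92.WC

open Pool.Agent.Helper22.AE
open Pool.Agent.Helper22.AC (cntc)
open Pool.Agent.Helper22.WC (SupE LimS)
open Pool.Agent.Helper92.LW (fjk cut)

/-- all moments of the largest error have an asymptotic formula with a positive constant -/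
theorem asymp_S_fin {H : ℝ → ℝ} (hH : ContDiff ℝ 2 H) (hp : Function.Periodic H (2 * π)) (hr : ∀ θ, 0 < H θ + deriv (deriv H) θ)
    (hP : Pool.Agent.Helper92.LW.PM2 H) (hS : ∀ j K : ℕ, LimS H (fjk j K)) {p : ℝ} (hp0 : 0 < p) :
    ∃ M : ℝ, 0 < M ∧ ∀ d : ℝ, 0 < d → ∃ X₀ : ℝ, 1 ≤ X₀ ∧ ∀ X : ℝ, X₀ ≤ X →
      ∫⁻ R in Icc 1 X, ⨆ c : ℝ × ℝ, ENNReal.ofReal (|cntc H c R - area H * R ^ 2| ^ p) ≠ ⊤ ∧
      |(∫⁻ R in Icc 1 X, ⨆ c : ℝ × ℝ, ENNReal.ofReal (|cntc H c R - area H * R ^ 2| ^ p)).toReal / X ^ (1 + p / 2) - M| ≤ d := by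
  obtain ⟨q, hq⟩ := (pow_growth hp0).2
  exact asymp_S hH hp hr hP hp0 (Pool.Agent.Helper85.WC.grow_S hH hp hr hS hP.1.1 (pow_growth hp0).1 (A := 1) (q := q) hq)

end Pool.Agent.Helper92.WC
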